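import Pool.Agent.H.MP_4cfe6b_lc.B

/-! Nondeterministic modular and nondeterministic top-down regular real-time trellis automata
accept the same languages. -/

namespace Pool.Agent.Results.MP_4cfe6b_lc.Eq

open Pool.Agent.H.MP_bd4c56_lc Pool.Agent.H.MP_4cfe6b_lc

/-- The map `π` on rows: `π (d₁ ⋯ dₛ) = l d₁, h d₁ d₂, …, h dₛ₋₁ dₛ, r dₛ`. -/
def pi {D : Type} (l r : D → D) (h : D → D → D) (L : List D) : List D :=
  (L.head?.map l).toList ++ List.zipWith h L L.tail ++ (L.getLast?.map r).toList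

/-- Top-down regular labellings: row `m`, that is `T 0 m, T 1 (m-1), …, T m 0`, is `π^m a`. -/
def Regular {D : Type} (T : ℕ → ℕ → D) : Prop :=
  ∃ (l r : D → D) (h : D → D → D) (a : D), ∀ m,
    (pi l r h)^[m] [a] = (List.range (m + 1)).map fun k => T k (m - k)

/-- The language of a nondeterministic trellis automaton: `ρ i j` is the output chosen at the node
`(i, j)`; `none` is the symbol λ. -/
def lang {S D G : Type} (T : ℕ → ℕ → D) (g : D → Option G → Option G → Set G) (ι : S → G)
    (G0 : Set G) : Set (List S) :=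
  {w | w ≠ [] ∧ ∃ ρ : ℕ → ℕ → G,
    (∀ i j, i + j + 1 = w.length → ρ i j ∈ g (T i j) none (w[i]?.map ι)) ∧
    (∀ i j, i + j + 1 < w.length → ρ i j ∈ g (T i j) (some (ρ i (j + 1))) (some (ρ (i + 1) j))) ∧
    ρ 0 0 ∈ G0}

/-- `L` is accepted by a nondeterministic trellis automaton whose labelling satisfies `P`. -/
def Acc (P : ∀ {D : Type}, (ℕ → ℕ → D) → Prop) {S : Type} (L : Set (List S)) : Prop :=
  ∃ (D G : Type) (_ : Fintype D) (_ : Fintype G) (ι : S ↪ G) (T : ℕ → ℕ → D)
    (g : D → Option G → Option G → Set G) (G0 : Set G),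
    P T ∧ (∀ d x y, (g d x y).Nonempty) ∧ L = lang T g ι G0

theorem pi_row {D : Type} (l r : D → D) (h : D → D → D) (f : ℕ → D) (m : ℕ) :
    pi l r h ((List.range (m + 1)).map f) = (List.range (m + 1 + 1)).map fun k =>
      if k = 0 then l (f 0) else if k = m + 1 then r (f m) else h (f (k - 1)) (f k) := by
  have e1 : ((List.range (m + 1)).map f).head? = some (f 0) := by
    simp [List.range_succ_eq_map]
  have e2 : ((List.range (m + 1)).map f).getLast? = some (f m) := by
    simp [List.range_succ]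
  have e3 : List.zipWith h ((List.range (m + 1)).map f) ((List.range (m + 1)).map f).tail =
      (List.range m).map fun k => h (f k) (f (k + 1)) := by
    apply List.ext_getElem
    · simp
    · intro k h1 h2
      simp
  rw [pi, e1, e2, e3, List.range_succ (n := m + 1), List.range_succ_eq_map]
  simp only [Option.map_some, Option.toList_some, List.map_append, List.map_cons, List.map_map,
    List.map_nil, if_true, List.cons_append, List.nil_append, Nat.succ_ne_zero, if_false,
    List.cons.injEq, true_and, List.append_cancel_right_eq]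
  refine List.map_congr_left fun k hk => ?_
  have : k ≠ m := by have := List.mem_range.1 hk; omega
  simp [this]

theorem regular_const : Regular fun _ _ => () := by
  refine ⟨id, id, fun _ _ => (), (), fun m => ?_⟩
  induction m with
  | zero => rfl
  | succ m ih => rw [Function.iterate_succ_apply', ih, pi_row]

theorem modular_const : Modular fun _ _ => () :=
  Closed.modular (p := 2) (q := 2) le_rfl le_rfl fun _ _ _ _ _ _ _ _ _ => rfl

theorem regular_forced {D : Type} [Finite D] {T : ℕ → ℕ → D} (hT : Regular T) :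
    ∃ (Θ : Type) (_ : Finite Θ) (Φ : ℕ → ℕ → Θ),
      Forced Φ ∧ ∀ a b a' b', Φ a b = Φ a' b' → T a b = T a' b' := by
  obtain ⟨l, r, h, a0, hT⟩ := hT
  have key : ∀ m k, k ≤ m + 1 → T k (m + 1 - k) = if k = 0 then l (T 0 m) else
      if k = m + 1 then r (T m 0) else h (T (k - 1) (m - (k - 1))) (T k (m - k)) := by
    intro m k hk
    have := hT (m + 1)
    rw [Function.iterate_succ_apply', hT m, pi_row, List.map_inj_left] at this
    rw [← this k (List.mem_range.2 (by omega))]
    simp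
  have k1 : ∀ y, T 0 (y + 1) = l (T 0 y) := fun y => by simpa using key y 0 (by omega)
  have k2 : ∀ x, T (x + 1) 0 = r (T x 0) := fun x => by simpa using key x (x + 1) le_rfl
  have k3 : ∀ x y, T (x + 1) (y + 1) = h (T x (y + 1)) (T (x + 1) y) := fun x y => by
    have := key (x + y + 1) (x + 1) (by omega)
    rw [if_neg (by omega), if_neg (by omega)] at this
    have e1 : x + y + 1 + 1 - (x + 1) = y + 1 := by omega
    have e2 : x + y + 1 - (x + 1 - 1) = y + 1 := by omega
    have e3 : x + y + 1 - (x + 1) = y := by omega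
    rwa [e1, e2, e3] at this
  let up : ℕ → ℕ → D := fun x y => T (x - 1) y
  let lf : ℕ → ℕ → D := fun x y => T x (y - 1)
  let Φ : ℕ → ℕ → (Prop × Prop) × D × D × D := fun x y => ((x = 0, y = 0), T x y, up x y, lf x y)
  have hK : KB Φ := fun a b a' b' e => by
    have := congrArg Prod.fst e
    simpa [Φ] using this
  refine ⟨_, inferInstance, Φ, fun n τ h0 ht => ?_, fun a b a' b' e => congrArg (·.2.1) e⟩
  have hc := cell hK h0 ht
  have A : ∀ m x y, x + y = m → x + y < n → τ x y = Φ x y := by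
    intro m
    induction m with
    | zero =>
      intro x y h1 _
      have hx : x = 0 := by omega
      have hy : y = 0 := by omega
      subst hx hy
      exact h0
    | succ m ih =>
      intro x y h1 h2
      rcases x with _ | x
      · obtain ⟨y, rfl⟩ : ∃ y', y = y' + 1 := ⟨y - 1, by omega⟩
        obtain ⟨a, b, e1, e2, -⟩ := ht 0 y (by omega)
        rw [ih 0 y (by omega) (by omega)] at e1
        have ha := (hK _ _ _ _ e1).1.1 rfl
        subst ha
        have e3 : T 0 y = T 0 b := congrArg (·.2.1) e1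
        rw [e2]
        simp [Φ, up, lf, k1, e3]
      rcases y with _ | y
      · obtain ⟨a, b, e1, -, e2⟩ := ht x 0 (by omega)
        rw [ih x 0 (by omega) (by omega)] at e1
        have hb := (hK _ _ _ _ e1).2.1 rfl
        subst hb
        have e3 : T x 0 = T a 0 := congrArg (·.2.1) e1
        rw [e2]
        simp [Φ, up, lf, k2, e3]
      obtain ⟨c, d, c1, c2, -⟩ := ht (x + 1) y (by omega)
      obtain ⟨a, b, a1, -, a2⟩ := ht x (y + 1) (by omega)
      rw [ih _ _ (by omega) (by omega)] at c1 a1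
      obtain ⟨c, rfl⟩ : ∃ c', c = c' + 1 :=
        ⟨c - 1, by have := (hK _ _ _ _ c1).1; omega⟩
      have e1 : T (x + 1) y = T (c + 1) d := congrArg (·.2.1) c1
      have e2 : T x (y + 1) = T a b := congrArg (·.2.1) a1
      have e3 : T c (d + 1) = T a b := congrArg (·.2.2.1) (c2.symm.trans a2)
      rw [c2]
      simp [Φ, up, lf, k3, e1, e2, e3]
  exact fun x y => A _ x y rfl

theorem sim {S D G Θ : Type} [Fintype S] [Fintype G] [Finite Θ] (ι : S ↪ G) (T : ℕ → ℕ → D)
    (g : D → Option G → Option G → Set G) (G0 : Set G) (Φ : ℕ → ℕ → Θ) (hF : Forced Φ)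
    (hT : ∀ a b a' b', Φ a b = Φ a' b' → T a b = T a' b')
    (P : ∀ {D : Type}, (ℕ → ℕ → D) → Prop) (hP : P fun _ _ => ()) : Acc P (lang T g ι G0) := by
  classical
  have := Fintype.ofFinite Θ
  let c : G → Θ → S ⊕ Option (G × Θ) := fun γ θ => .inr (some (γ, θ))
  have hcinj : ∀ {γ θ γ' θ'}, c γ θ = c γ' θ' → γ = γ' ∧ θ = θ' := fun h => by simpa [c] using h
  refine ⟨Unit, S ⊕ Option (G × Θ), inferInstance, inferInstance, ⟨Sum.inl, Sum.inl_injective⟩,
    fun _ _ => (), fun _ u v => {z | z = .inr none ∨ ∃ γ a b, z = c γ (Φ a b) ∧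
      ((∃ s : Option S, u = none ∧ v = s.map .inl ∧ γ ∈ g (T a b) none (s.map ι)) ∨
      ∃ γ1 γ2, u = some (c γ1 (Φ a (b + 1))) ∧ v = some (c γ2 (Φ (a + 1) b)) ∧
        γ ∈ g (T a b) (some γ1) (some γ2))}, {z | ∃ γ ∈ G0, z = c γ (Φ 0 0)}, hP,
    fun _ _ _ => ⟨_, Or.inl rfl⟩, ?_⟩
  ext w
  refine and_congr_right fun hw => ⟨fun ⟨ρ, h1, h2, h3⟩ => ?_, fun ⟨ρ, h1, h2, γ0, h3, h4⟩ => ?_⟩
  · exact ⟨fun i j => c (ρ i j) (Φ i j),
      fun i j e => Or.inr ⟨_, i, j, rfl, Or.inl ⟨_, rfl, rfl, h1 i j e⟩⟩,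
      fun i j e => Or.inr ⟨_, i, j, rfl, Or.inr ⟨_, _, rfl, rfl, h2 i j e⟩⟩, _, h3, rfl⟩
  let f1 : S ⊕ Option (G × Θ) → G := Sum.elim (fun _ => γ0) fun o => o.elim γ0 Prod.fst
  let f2 : S ⊕ Option (G × Θ) → Θ := Sum.elim (fun _ => Φ 0 0) fun o => o.elim (Φ 0 0) Prod.snd
  have down : ∀ i j, i + j + 1 < w.length → ρ i j ≠ .inr none → ∃ γ a b γ1 γ2,
      ρ i j = c γ (Φ a b) ∧ ρ i (j + 1) = c γ1 (Φ a (b + 1)) ∧ ρ (i + 1) j = c γ2 (Φ (a + 1) b) ∧
        γ ∈ g (T a b) (some γ1) (some γ2) := by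
    intro i j e hn
    rcases h2 i j e with h | ⟨γ, a, b, e1, ⟨s, e2, -⟩ | ⟨γ1, γ2, e2, e3, e4⟩⟩
    · exact (hn h).elim
    · cases e2
    · exact ⟨γ, a, b, γ1, γ2, e1, Option.some.inj e2, Option.some.inj e3, e4⟩
  have ns : ∀ m i j, i + j = m → i + j < w.length → ρ i j ≠ .inr none := by
    intro m
    induction m with
    | zero =>
      intro i j e _
      have hi : i = 0 := by omega
      have hj : j = 0 := by omega
      subst hi hj
      rw [h4]
      simp [c]
    | succ m ih =>
      intro i j e hl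
      rcases i with _ | i
      · obtain ⟨j, rfl⟩ : ∃ j', j = j' + 1 := ⟨j - 1, by omega⟩
        obtain ⟨_, _, _, _, _, -, e2, -⟩ := down 0 j (by omega) (ih 0 j (by omega) (by omega))
        rw [e2]
        simp [c]
      · obtain ⟨_, _, _, _, _, -, -, e2, -⟩ := down i j (by omega) (ih i j (by omega) (by omega))
        rw [e2]
        simp [c]
  have hτ := hF w.length (fun i j => f2 (ρ i j)) (by simp only [h4]; rfl) fun i j e => by
    obtain ⟨γ, a, b, γ1, γ2, e1, e2, e3, -⟩ := down i j e (ns _ i j rfl (by omega))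
    exact ⟨a, b, by simp only [e1]; rfl, by simp only [e2]; rfl, by simp only [e3]; rfl⟩
  refine ⟨fun i j => f1 (ρ i j), fun i j e => ?_, fun i j e => ?_, by simp only [h4]; exact h3⟩
  · rcases h1 i j e with h | ⟨γ, a, b, e1, ⟨s, -, e2, e3⟩ | ⟨γ1, γ2, e2, -⟩⟩
    · exact (ns _ i j rfl (by omega) h).elim
    · have e4 := hτ i j (by omega)
      simp only [e1] at e4 ⊢
      have e5 : w[i]? = s := Option.map_injective Sum.inl_injective e2
      rw [← hT a b i j e4, e5]
      exact e3
    · cases e2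
  · obtain ⟨γ, a, b, γ1, γ2, e1, e2, e3, e4⟩ := down i j e (ns _ i j rfl (by omega))
    have e5 := hτ i j (by omega)
    simp only [e1, e2, e3] at e5 ⊢
    rw [← hT a b i j e5]
    exact e4

theorem result (S : Type) [Fintype S] (L : Set (List S)) :
    Acc (fun T => Modular T) L ↔ Acc (fun T => Regular T) L := by
  constructor
  · rintro ⟨D, G, _, _, ι, T, g, G0, hT, -, rfl⟩
    obtain ⟨Θ, _, Φ, h1, h2⟩ := modular_forced hT
    exact sim ι T g G0 Φ h1 h2 _ regular_const
  · rintro ⟨D, G, _, _, ι, T, g, G0, hT, -, rfl⟩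
    obtain ⟨Θ, _, Φ, h1, h2⟩ := regular_forced hT
    exact sim ι T g G0 Φ h1 h2 _ modular_const

end Pool.Agent.Results.MP_4cfe6b_lc.Eq
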